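import Pool.Agent.Lib.Common.CookLevin.Table

/-!
The tableau formula of a table: a list of clauses that is satisfiable exactly when the machine
does not give the forbidden output.
-/

set_option autoImplicit false

namespace Pool.Agent.Lib.Common.CookLevin

open Pool.Agent.Lib.MP_acf5a6_lc

/-- Variables: a class number and an address. -/
abbrev Var : Type := ℕ × List ℕ

/-- Literals: a variable and the value that makes the literal true. -/
abbrev Lit : Type := Var × Bool

/-- Clauses. -/
abbrev Clause : Type := List Lit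

/-- The clause has a true literal. -/
def Sat (ρ : Var → Bool) (C : Clause) : Prop := ∃ l ∈ C, ρ l.1 = l.2

/-- The value of a literal. -/
def ev (ρ : Var → Bool) (l : Lit) : Bool := decide (ρ l.1 = l.2)

@[simp] theorem sat_nil (ρ : Var → Bool) : ¬ Sat ρ [] := by simp [Sat]

@[simp] theorem sat_cons (ρ : Var → Bool) (l : Lit) (C : Clause) :
    Sat ρ (l :: C) ↔ ρ l.1 = l.2 ∨ Sat ρ C := by simp [Sat]

@[simp] theorem sat_append (ρ : Var → Bool) (C C' : Clause) :
    Sat ρ (C ++ C') ↔ Sat ρ C ∨ Sat ρ C' := by
  induction C with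
  | nil => simp
  | cons l C ih => simp [ih, or_assoc]

/-- State variables. -/
def sv (t q : ℕ) : Var := (3, [t, q])

/-- Cell variables. -/
def cv (t k i s : ℕ) : Var := (4, [t, k, i, s])

/-- The negated premises of a rule. -/
def prem (t : ℕ) (r : Row) : Clause :=
  (sv t r.1, false) :: r.2.1.map (fun w => (cv t w.1 w.2.1 w.2.2, false))

/-- The clauses of one rule at one time. -/
def stepCl (τ : Table) (S : Un) (t : ℕ) (r : Row) : List Clause :=
  ((sv (t + 1) r.2.2.1, true) :: prem t r) ::
    r.2.2.2.flatMap (fun e =>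
      e.2.zipIdx.map (fun x => (cv (t + 1) e.1 x.2 x.1, true) :: prem t r) ++
      (urange S).flatMap (fun i => (List.range τ.nS).map (fun a =>
        (cv (t + 1) e.1 (i + e.2.length) a, true) :: (cv t e.1 (i + τ.D) a, false) :: prem t r)))

/-- The clauses of one input case. -/
def caseCl (τ : Table) (S : Un) (c : Clause × List Lit) : List Clause :=
  c.2.zipIdx.flatMap (fun x => [(cv 0 τ.k0 x.2 τ.cT, true) :: (x.1.1, !x.1.2) :: c.1,
      (cv 0 τ.k0 x.2 τ.cF, true) :: x.1 :: c.1]) ++
    (urange S).map (fun i => (cv 0 τ.k0 (i + c.2.length) 0, true) :: c.1)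

/-- The tableau formula. -/
def cnf (τ : Table) (T S : Un) (cases : List (Clause × List Lit)) : List Clause :=
  [(cv T.n τ.k1 0 τ.out, false)] :: [(sv 0 τ.q0, true)] ::
    (((List.range τ.nK).filter (fun k => decide (k ≠ τ.k0))).flatMap
        (fun k => (urange S).map (fun i => [(cv 0 k i 0, true)])) ++
      (cases.flatMap (caseCl τ S) ++ (urange T).flatMap (fun t => τ.rows.flatMap (stepCl τ S t))))

theorem cnf_PT {α : Type} [N487b59b3 α] (τ : Table) {T S : α → Un}
    {cases : α → List (Clause × List Lit)} (hT : PT T) (hS : PT S) (hc : PT cases) :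
    PT (fun a => cnf τ (T a) (S a) (cases a)) := by
  unfold cnf caseCl stepCl prem sv cv
  fun_prop

theorem cnf_sound {τ : Table} (hτ : τ.Good) {I : List Bool} {run : ℕ → Conf} (hr : τ.Run I run)
    {T S : Un} (hS : T.n * τ.D < S.n) {cases : List (Clause × List Lit)} {ρ : Var → Bool}
    (hρ : ∀ C ∈ cnf τ T S cases, Sat ρ C) {c : Clause × List Lit} (hc : c ∈ cases)
    (hg : ¬ Sat ρ c.1) (hI : c.2.map (ev ρ) = I) : (run T.n).2 τ.k1 0 ≠ τ.out := by
  simp only [cnf, List.mem_cons, List.mem_append, List.mem_flatMap, List.mem_filter,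
    List.mem_range, List.mem_map, urange, forall_eq, or_imp, forall_and,
    forall_exists_index, and_imp, decide_eq_true_eq, sat_cons, sat_nil, or_false] at hρ
  obtain ⟨h1, h2, h3, h4, h5⟩ := hρ
  have key : ∀ t ≤ T.n, ρ (sv t (run t).1) = true ∧
      ∀ k < τ.nK, ∀ i, i + t * τ.D < S.n → ρ (cv t k i ((run t).2 k i)) = true := by
    intro t
    induction t with
    | zero =>
      intro _
      refine ⟨by rw [hr.st0]; exact h2, fun k hk i hi => ?_⟩
      by_cases hk0 : k = τ.k0
      · subst hk0
        by_cases hi' : i < c.2.length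
        · have e1 := hr.inp (ev ρ c.2[i], i) (by
            rw [← hI]
            exact List.mk_mem_zipIdx_iff_getElem?.2 (by simp [hi']))
          have m : (c.2[i], i) ∈ c.2.zipIdx := List.mk_mem_zipIdx_iff_getElem?.2 (by simp [hi'])
          have a1 := h4 ((cv 0 τ.k0 i τ.cT, true) :: (c.2[i].1, !c.2[i].2) :: c.1) c hc (by
            simp only [caseCl, List.mem_append, List.mem_flatMap]
            exact Or.inl ⟨_, m, by simp⟩)
          have a2 := h4 ((cv 0 τ.k0 i τ.cF, true) :: c.2[i] :: c.1) c hc (by
            simp only [caseCl, List.mem_append, List.mem_flatMap]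
            exact Or.inl ⟨_, m, by simp⟩)
          simp only [sat_cons, hg, or_false] at a1 a2
          simp only at e1
          rw [e1]
          by_cases hv : ρ c.2[i].1 = c.2[i].2
          · simpa [ev, hv] using a1
          · simpa [ev, hv] using a2
        · obtain ⟨j, rfl⟩ : ∃ j, i = j + c.2.length := ⟨i - c.2.length, by omega⟩
          have e1 := hr.blank j
          rw [← hI, List.length_map] at e1
          have a1 := h4 ((cv 0 τ.k0 (j + c.2.length) 0, true) :: c.1) c hc (by
            simp only [caseCl, List.mem_append, List.mem_map, urange, List.mem_range]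
            exact Or.inr ⟨j, by omega, rfl⟩)
          rw [e1]
          simpa [hg] using a1
      · rw [hr.other k hk0]
        simpa using h3 _ k hk hk0 i (by omega) rfl
    | succ t ih =>
      intro ht
      obtain ⟨ih1, ih2⟩ := ih (by omega)
      obtain ⟨r, hrm, hm⟩ := hr.ex t
      obtain ⟨ha1, ha2⟩ := hr.app t r hrm hm
      obtain ⟨hg1, hg2⟩ := hτ.2 r hrm
      have hD : (t + 1) * τ.D ≤ T.n * τ.D := Nat.mul_le_mul_right _ ht
      rw [add_mul, one_mul] at hD ⊢
      have hp : ¬ Sat ρ (prem t r) := by
        simp only [prem, sat_cons, not_or]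
        refine ⟨by rw [← hm.1, ih1]; simp, ?_⟩
        rintro ⟨l, hl, hl'⟩
        obtain ⟨w, hw, rfl⟩ := List.mem_map.1 hl
        have := ih2 w.1 (hg1 w hw).1 w.2.1 (by have := (hg1 w hw).2; omega)
        rw [hm.2 w hw] at this
        simp [this] at hl'
      have h6 := fun C hC => h5 C t (by omega) r hrm hC
      refine ⟨?_, fun k hk i hi => ?_⟩
      · have := h6 _ (List.mem_cons_self)
        rw [ha1]
        simpa [hp] using this
      · obtain ⟨e, he, rfl⟩ := hg2 k hk
        obtain ⟨hb1, hb2⟩ := ha2 e he
        by_cases hi' : i < e.2.length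
        · have m : (e.2[i], i) ∈ e.2.zipIdx := List.mk_mem_zipIdx_iff_getElem?.2 (by simp [hi'])
          have := h6 ((cv (t + 1) e.1 i e.2[i], true) :: prem t r) (by
            simp only [stepCl, List.mem_cons, List.mem_flatMap, List.mem_append, List.mem_map]
            exact Or.inr ⟨e, he, Or.inl ⟨_, m, rfl⟩⟩)
          rw [hb1 _ m]
          simpa [hp] using this
        · obtain ⟨j, rfl⟩ : ∃ j, i = j + e.2.length := ⟨i - e.2.length, by omega⟩
          have := h6 ((cv (t + 1) e.1 (j + e.2.length) ((run t).2 e.1 (j + τ.D)), true) ::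
              (cv t e.1 (j + τ.D) ((run t).2 e.1 (j + τ.D)), false) :: prem t r) (by
            simp only [stepCl, List.mem_cons, List.mem_flatMap, List.mem_append, List.mem_map,
              urange, List.mem_range]
            exact Or.inr ⟨e, he, Or.inr ⟨j, by omega, _, hr.lt _ _ _, rfl⟩⟩)
          rw [hb2 j]
          simpa [hp, ih2 e.1 hk (j + τ.D) (by omega)] using this
  intro h
  have := (key T.n le_rfl).2 τ.k1 hτ.1 0 (by omega)
  rw [h, h1] at this
  cases this

theorem cnf_complete {τ : Table} {I : List Bool} {run : ℕ → Conf} (hr : τ.Run I run)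
    {T S : Un} {cases : List (Clause × List Lit)} {ρ : Var → Bool}
    (hs : ∀ t q, ρ (sv t q) = decide ((run t).1 = q))
    (hc : ∀ t k i s, ρ (cv t k i s) = decide ((run t).2 k i = s))
    (hI : ∀ c ∈ cases, ¬ Sat ρ c.1 → c.2.map (ev ρ) = I) (ho : (run T.n).2 τ.k1 0 ≠ τ.out) :
    ∀ C ∈ cnf τ T S cases, Sat ρ C := by
  simp only [cnf, List.mem_cons, List.mem_append, List.mem_flatMap, List.mem_filter,
    List.mem_range, List.mem_map, urange, forall_eq, or_imp, forall_and,
    forall_exists_index, and_imp, decide_eq_true_eq, sat_cons, sat_nil, or_false]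
  refine ⟨by simp [hc, ho], by simp [hs, hr.st0], ?_, ?_, ?_⟩
  · rintro _ k _ hk i _ rfl
    simp [hc, hr.other k hk]
  · intro C c hcm hC
    by_cases hg : Sat ρ c.1
    · simp only [caseCl, List.mem_append, List.mem_flatMap, List.mem_cons, List.mem_map,
        List.not_mem_nil, or_false] at hC
      rcases hC with ⟨x, _, rfl | rfl⟩ | ⟨i, _, rfl⟩ <;> simp [hg]
    · have e := hI c hcm hg
      simp only [caseCl, List.mem_append, List.mem_flatMap, List.mem_cons, List.mem_map,
        List.not_mem_nil, or_false] at hC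
      rcases hC with ⟨⟨l, i⟩, hx, hC⟩ | ⟨i, _, rfl⟩
      · have e1 := hr.inp (ev ρ l, i) (by
          rw [← e]
          refine List.mk_mem_zipIdx_iff_getElem?.2 ?_
          rw [List.getElem?_map, List.mk_mem_zipIdx_iff_getElem?.1 hx]
          rfl)
        simp only at e1
        by_cases hv : ρ l.1 = l.2
        · rcases hC with rfl | rfl <;> simp [hc, e1, ev, hv]
        · rcases hC with rfl | rfl
          · simp only [sat_cons]
            right; left
            revert hv
            cases ρ l.1 <;> cases l.2 <;> simp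
          · simp [hc, e1, ev, hv]
      · have e1 := hr.blank i
        rw [← e, List.length_map] at e1
        simp [hc, e1]
  · intro C t _ r hrm hC
    by_cases hp : Sat ρ (prem t r)
    · simp only [stepCl, List.mem_cons, List.mem_flatMap, List.mem_append, List.mem_map] at hC
      rcases hC with rfl | ⟨e, _, ⟨x, _, rfl⟩ | ⟨i, _, a, _, rfl⟩⟩ <;> simp [hp]
    · have hm : Match r (run t) := by
        simp only [prem, sat_cons, not_or, hs] at hp
        refine ⟨by simpa using hp.1, fun w hw => ?_⟩
        by_contra hne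
        exact hp.2 ⟨_, List.mem_map.2 ⟨w, hw, rfl⟩, by simp [hc, hne]⟩
      obtain ⟨ha1, ha2⟩ := hr.app t r hrm hm
      simp only [stepCl, List.mem_cons, List.mem_flatMap, List.mem_append, List.mem_map] at hC
      rcases hC with rfl | ⟨e, he, ⟨x, hx, rfl⟩ | ⟨i, _, a, _, rfl⟩⟩
      · simp [hs, ha1]
      · simp [hc, (ha2 e he).1 x hx]
      · by_cases h : (run t).2 e.1 (i + τ.D) = a <;> simp [hc, (ha2 e he).2 i, h]

end Pool.Agent.Lib.Common.CookLevin
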