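import Pool.Agent.Lib.Common.CookLevin.MorePT

/-!
The parsimonious Cook-Levin theorem: the witnesses accepted by a polynomial-time predicate are
in bijection with the satisfying assignments of a formula computable in polynomial time.
-/

set_option autoImplicit false

namespace Pool.Agent.Lib.Common.CookLevin

open Pool.Agent.Lib.MP_acf5a6_lc N487b59b3

theorem cnf_key {τ : Table} (hτ : τ.Good) {I : List Bool} {run : ℕ → Conf} (hr : τ.Run I run)
    {T S : Un} (hS : T.n * τ.D < S.n) {tm : List Lit} {ρ : Var → Bool} {G : Var → Prop}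
    (hρ : ∀ C ∈ cnf τ T S [([], tm)], (∀ l ∈ C, G l.1) → Sat ρ C) (hI : tm.map (ev ρ) = I)
    (G0 : ∀ l ∈ tm, G l.1) (G1 : ∀ t ≤ T.n, G (sv t (run t).1))
    (G2 : ∀ t ≤ T.n, ∀ k < τ.nK, ∀ i, i + t * τ.D < S.n → G (cv t k i ((run t).2 k i))) :
    ∀ t ≤ T.n, ρ (sv t (run t).1) = true ∧
      ∀ k < τ.nK, ∀ i, i + t * τ.D < S.n → ρ (cv t k i ((run t).2 k i)) = true := by
  simp only [cnf, List.mem_cons, List.mem_append, List.mem_flatMap, List.mem_filter,
    List.mem_range, List.mem_map, urange, forall_eq, or_imp, forall_and,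
    forall_exists_index, and_imp, decide_eq_true_eq, sat_cons, sat_nil, or_false,
    List.not_mem_nil] at hρ
  obtain ⟨-, h2, h3, h4, h5⟩ := hρ
  intro t
  induction t with
  | zero =>
    intro h0
    refine ⟨by rw [hr.st0]; exact h2 (hr.st0 ▸ G1 0 h0), fun k hk i hi => ?_⟩
    have g := G2 0 h0 k hk i hi
    by_cases hk0 : k = τ.k0
    · subst hk0
      by_cases hi' : i < tm.length
      · have e1 := hr.inp (ev ρ tm[i], i) (by
          rw [← hI]
          exact List.mk_mem_zipIdx_iff_getElem?.2 (by simp [hi']))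
        have m : (tm[i], i) ∈ tm.zipIdx := List.mk_mem_zipIdx_iff_getElem?.2 (by simp [hi'])
        have g0 := G0 _ (List.getElem_mem hi')
        simp only at e1
        rw [e1] at g ⊢
        by_cases hv : ρ tm[i].1 = tm[i].2
        · simp only [ev, hv, decide_true, cond_true] at g ⊢
          have a1 := h4 [(cv 0 τ.k0 i τ.cT, true), (tm[i].1, !tm[i].2)] (by
            simp only [caseCl, List.mem_append, List.mem_flatMap]
            exact Or.inl ⟨_, m, by simp⟩) (by simp [g, g0])
          simpa [hv] using a1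
        · simp only [ev, hv, decide_false, cond_false] at g ⊢
          have a2 := h4 [(cv 0 τ.k0 i τ.cF, true), tm[i]] (by
            simp only [caseCl, List.mem_append, List.mem_flatMap]
            exact Or.inl ⟨_, m, by simp⟩) (by simp [g, g0])
          simpa [hv] using a2
      · obtain ⟨j, rfl⟩ : ∃ j, i = j + tm.length := ⟨i - tm.length, by omega⟩
        have e1 := hr.blank j
        rw [← hI, List.length_map] at e1
        rw [e1] at g ⊢
        have a1 := h4 [(cv 0 τ.k0 (j + tm.length) 0, true)] (by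
          simp only [caseCl, List.mem_append, List.mem_map, urange, List.mem_range]
          exact Or.inr ⟨j, by omega, rfl⟩) (by simp [g])
        simpa using a1
    · rw [hr.other k hk0] at g ⊢
      simpa using h3 _ k hk hk0 i (by omega) rfl (by simp [g])
  | succ t ih =>
    intro ht
    obtain ⟨ih1, ih2⟩ := ih (by omega)
    obtain ⟨r, hrm, hm⟩ := hr.ex t
    obtain ⟨ha1, ha2⟩ := hr.app t r hrm hm
    obtain ⟨hg1, hg2⟩ := hτ.2 r hrm
    have hD : (t + 1) * τ.D ≤ T.n * τ.D := Nat.mul_le_mul_right _ ht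
    have g1 := G1 _ ht
    have g2 := G2 _ ht
    rw [add_mul, one_mul] at hD g2 ⊢
    have hp : ¬ Sat ρ (prem t r) := by
      simp only [prem, sat_cons, not_or]
      refine ⟨by rw [← hm.1, ih1]; simp, ?_⟩
      rintro ⟨l, hl, hl'⟩
      obtain ⟨w, hw, rfl⟩ := List.mem_map.1 hl
      have := ih2 w.1 (hg1 w hw).1 w.2.1 (by have := (hg1 w hw).2; omega)
      rw [hm.2 w hw] at this
      simp [this] at hl'
    have gp : ∀ l ∈ prem t r, G l.1 := by
      simp only [prem, List.forall_mem_cons, List.forall_mem_map]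
      refine ⟨hm.1 ▸ G1 t (by omega), fun w hw => ?_⟩
      rw [← hm.2 w hw]
      exact G2 t (by omega) _ (hg1 w hw).1 _ (by have := (hg1 w hw).2; omega)
    have h6 := fun C hC => h5 C t (by omega) r hrm hC
    refine ⟨?_, fun k hk i hi => ?_⟩
    · have := h6 _ (List.mem_cons_self) (List.forall_mem_cons.2 ⟨ha1 ▸ g1, gp⟩)
      rw [ha1]
      simpa [hp] using this
    · have g3 := g2 k hk i hi
      obtain ⟨e, he, rfl⟩ := hg2 k hk
      obtain ⟨hb1, hb2⟩ := ha2 e he
      by_cases hi' : i < e.2.length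
      · have m : (e.2[i], i) ∈ e.2.zipIdx := List.mk_mem_zipIdx_iff_getElem?.2 (by simp [hi'])
        rw [hb1 _ m] at g3 ⊢
        have := h6 ((cv (t + 1) e.1 i e.2[i], true) :: prem t r) (by
          simp only [stepCl, List.mem_cons, List.mem_flatMap, List.mem_append, List.mem_map]
          exact Or.inr ⟨e, he, Or.inl ⟨_, m, rfl⟩⟩) (List.forall_mem_cons.2 ⟨g3, gp⟩)
        simpa [hp] using this
      · obtain ⟨j, rfl⟩ : ∃ j, i = j + e.2.length := ⟨i - e.2.length, by omega⟩
        rw [hb2 j] at g3 ⊢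
        have := h6 ((cv (t + 1) e.1 (j + e.2.length) ((run t).2 e.1 (j + τ.D)), true) ::
            (cv t e.1 (j + τ.D) ((run t).2 e.1 (j + τ.D)), false) :: prem t r) (by
          simp only [stepCl, List.mem_cons, List.mem_flatMap, List.mem_append, List.mem_map,
            urange, List.mem_range]
          exact Or.inr ⟨e, he, Or.inr ⟨j, by omega, _, hr.lt _ _ _, rfl⟩⟩)
          (List.forall_mem_cons.2 ⟨g3, List.forall_mem_cons.2
            ⟨G2 t (by omega) _ hk _ (by omega), gp⟩⟩)
        simpa [hp, ih2 e.1 hk (j + τ.D) (by omega)] using this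

/-- Symbolic form of the encoding of a list of bits. -/
def encL (l : List Lit) : List Lit := l.flatMap (fun x => [(tt, true), x, (tt, false)])

/-- Symbolic form of `delimit`. -/
def delL (l : List Lit) : List Lit := l.flatMap (fun x => [(tt, true), x]) ++ [(tt, false)]

theorem map_encL {ρ : Var → Bool} (h : ρ tt = true) (l : List Lit) :
    (encL l).map (ev ρ) = bitEncode (l.map (ev ρ)) := by
  induction l with
  | nil => rfl
  | cons x l ih =>
    rw [List.map_cons, enc_cons, ← ih]
    simp [encL, enc_bool, delimit, ev, h]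

theorem map_delL {ρ : Var → Bool} (h : ρ tt = true) (l : List Lit) :
    (delL l).map (ev ρ) = delimit (l.map (ev ρ)) := by
  induction l with
  | nil => simp [delL, delimit, ev, h]
  | cons x l ih =>
    rw [List.map_cons, delimit, ← ih]
    simp [delL, ev, h]

/-- The symbolic input: the fixed word `x` and `P` free bits. -/
def tmpl (x : List Bool) (P : Un) : List Lit :=
  delL (encL (x.map (fun b => (tt, b)))) ++ encL ((urange P).map (fun j => (dv 0 j, true)))

theorem map_tmpl {ρ : Var → Bool} (h : ρ tt = true) (x : List Bool) (P : Un) :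
    (tmpl x P).map (ev ρ) = bitEncode (x, List.ofFn fun j : Fin P.n => ρ (dv 0 j)) := by
  have e1 : (x.map (fun b => (tt, b))).map (ev ρ) = x := by
    rw [List.map_map]
    conv_rhs => rw [← List.map_id x]
    exact List.map_congr_left (fun b _ => by cases b <;> simp [ev, h])
  have e2 : ((urange P).map (fun j => (dv 0 j, true))).map (ev ρ) =
      List.ofFn fun j : Fin P.n => ρ (dv 0 j) :=
    List.ext_getElem (by simp [urange]) (fun i _ _ => by simp [urange, ev])
  rw [tmpl, List.map_append, map_delL h, map_encL h, map_encL h, e1, e2, enc_pair]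

/-- A bound for the states. -/
def Table.nQ (τ : Table) : ℕ := (τ.rows.map (fun r => r.1)).sum + 1

/-- The variables of the formula. -/
def allVars (τ : Table) (T S P : Un) : List Var :=
  tt :: ((urange P).map (fun j => dv 0 j) ++ (urange (T.add ⟨1⟩)).flatMap (fun t =>
    (List.range τ.nQ).map (fun q => sv t q) ++ (List.range τ.nK).flatMap (fun k =>
      ((urange S).filter (fun i => decide (i + t * τ.D < S.n))).flatMap (fun i =>
        (List.range τ.nS).map (fun s => cv t k i s)))))

theorem mem_allVars {τ : Table} {T S P : Un} {v : Var} : v ∈ allVars τ T S P ↔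
    v = tt ∨ (∃ j < P.n, dv 0 j = v) ∨ ∃ t ≤ T.n, (∃ q < τ.nQ, sv t q = v) ∨
      ∃ k < τ.nK, ∃ i, i + t * τ.D < S.n ∧ ∃ s < τ.nS, cv t k i s = v := by
  simp only [allVars, List.mem_cons, List.mem_append, List.mem_map, List.mem_flatMap, urange,
    List.mem_range, List.mem_filter, decide_eq_true_eq, Un.add, Nat.lt_succ_iff]
  refine or_congr_right (or_congr_right (exists_congr fun t => and_congr_right fun _ =>
    or_congr_right (exists_congr fun k => and_congr_right fun _ => exists_congr fun i =>
      and_congr_left fun _ => ⟨fun h => h.2, fun h => ⟨by omega, h⟩⟩)))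

/-- At most one state at each time and at most one symbol in each cell. -/
def amo (V : List Var) : List Clause :=
  V.flatMap (fun u => (V.filter (fun v => decide (3 ≤ u.1) && decide (u.1 = v.1) &&
    decide (u.2.reverse.tail = v.2.reverse.tail) && !decide (u = v))).map
      (fun v => [(u, false), (v, false)]))

theorem mem_amo {V : List Var} {C : Clause} : C ∈ amo V ↔ ∃ u ∈ V, ∃ v ∈ V, 3 ≤ u.1 ∧ u.1 = v.1 ∧
    u.2.reverse.tail = v.2.reverse.tail ∧ u ≠ v ∧ [(u, false), (v, false)] = C := by
  simp [amo, and_assoc]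

open Classical in
theorem count_hard {R : List Bool × List Bool → Bool} (hR : N68a2faeb.IsPolyTime R)
    (p : Polynomial ℕ) :
    ∃ (V : List Bool → List Var) (φ : List Bool → List Clause), PT V ∧ PT φ ∧ ∀ x, (V x).Nodup ∧
      (∀ C ∈ φ x, ∀ l ∈ C, l.1 ∈ V x) ∧ ((V x).toFinset.powerset.filter
        (fun U => ∀ C ∈ φ x, Sat (fun v => decide (v ∈ U)) C)).card =
      (Finset.univ.filter fun w : Fin (p.eval x.length) → Bool => R (x, List.ofFn w)).card := by
  obtain ⟨hR⟩ := hR
  obtain ⟨τ, time, hτ, hrun⟩ := exists_table (ea := fun a => bitEncode a) hR false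
  let P : List Bool → Un := fun x => upoly p (ulen x)
  let T : List Bool → Un := fun x => upoly time (ulen (tmpl x (P x)))
  let S : List Bool → Un := fun x => ((T x).mul ⟨τ.D⟩).add ⟨1⟩
  let V : List Bool → List Var := fun x => allVars τ (T x) (S x) (P x)
  have hP : PT P := by fun_prop
  have htm : PT (fun x => tmpl x (P x)) := by unfold tmpl delL encL dv; fun_prop
  have hT : PT T := by fun_prop
  have hS : PT S := by fun_prop
  have hV : PT V := by simp only [V]; unfold allVars dv sv cv; fun_prop
  have hc := cnf_PT τ (cases := fun x => [([], tmpl x (P x))]) hT hS (by fun_prop)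
  refine ⟨fun x => uniq (V x), fun x => [(tt, true)] :: (amo (V x) ++
    (cnf τ (T x) (S x) [([], tmpl x (P x))]).filter (fun C => C.all (fun l => memb (V x) l.1))),
    by fun_prop, by unfold amo; fun_prop, fun x => ⟨(uniq_spec _).1, ?_, ?_⟩⟩
  · simp only [List.forall_mem_cons, List.mem_append, (uniq_spec _).2, mem_amo, List.mem_filter,
      List.all_eq_true, memb_iff]
    refine ⟨by simp [V, allVars], ?_⟩
    rintro C (⟨u, hu, v, hv, -, -, -, -, rfl⟩ | h)
    · simp [hu, hv]
    · exact h.2
  have hST : (T x).n * τ.D < (S x).n := by simp [S, Un.add, Un.mul]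
  choose run hr hout using fun w : Fin (P x).n → Bool => hrun (x, List.ofFn w)
  have hlen : ∀ w : Fin (P x).n → Bool, time.eval (bitEncode (x, List.ofFn w)).length ≤ (T x).n := by
    intro w
    have := congrArg List.length (map_tmpl (ρ := fun _ => true) rfl x (P x))
    have h2 : ∀ l : List Bool, (bitEncode l).length = 3 * l.length := fun l => by
      induction l with
      | nil => rfl
      | cons b l ih => have := sz_cons b l; simp only [sz, enc_bool] at this; simp [this, ih]; ring
    have h3 := sz_pair x (List.ofFn w)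
    have h4 := sz_pair x (List.ofFn fun _ : Fin (P x).n => true)
    simp only [sz, h2, List.length_ofFn, List.length_map] at h3 h4 this
    rw [h3, ← h4, ← this]
    exact le_rfl
  have hQ : ∀ w t, (run w t).1 < τ.nQ := by
    intro w t
    obtain ⟨r, hrm, hm⟩ := (hr w).ex t
    rw [hm.1]
    exact Nat.lt_succ_of_le (List.single_le_sum (by simp) _ (List.mem_map.2 ⟨r, hrm, rfl⟩))
  let ρ : (Fin (P x).n → Bool) → Var → Bool := fun w v => if v.1 = 0 then
    (List.ofFn w).getD (v.2.getD 1 0) false else if v.1 = 2 then true else tabVal (run w) v.2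
  have hρ : ∀ w (j : Fin (P x).n), ρ w (dv 0 j) = w j := fun w j => by simp [ρ, dv]
  have hmV : ∀ v, v ∈ (uniq (V x)).toFinset ↔ v ∈ V x := fun v => by
    rw [List.mem_toFinset, (uniq_spec _).2]
  have hsound : ∀ U : Finset Var, (∀ C ∈ [(tt, true)] :: (amo (V x) ++
      (cnf τ (T x) (S x) [([], tmpl x (P x))]).filter (fun C => C.all (fun l => memb (V x) l.1))),
      Sat (fun v => decide (v ∈ U)) C) → R (x, List.ofFn fun j : Fin (P x).n =>
        decide (dv 0 j ∈ U)) = true ∧ ∀ v ∈ V x, ρ (fun j => decide (dv 0 j ∈ U)) v =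
          decide (v ∈ U) := by
    intro U hU
    simp only [List.forall_mem_cons, List.mem_append, or_imp, forall_and, List.mem_filter,
      List.all_eq_true, memb_iff, and_imp, sat_cons, sat_nil, or_false] at hU
    obtain ⟨h1, h2, h3⟩ := hU
    set w : Fin (P x).n → Bool := fun j => decide (dv 0 j ∈ U) with hw
    have G1 : ∀ t ≤ (T x).n, ∀ q < τ.nQ, sv t q ∈ V x := fun t ht q hq =>
      mem_allVars.2 (Or.inr (Or.inr ⟨t, ht, Or.inl ⟨q, hq, rfl⟩⟩))
    have G2 : ∀ t ≤ (T x).n, ∀ k < τ.nK, ∀ i, i + t * τ.D < (S x).n → ∀ s < τ.nS,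
        cv t k i s ∈ V x := fun t ht k hk i hi s hs =>
      mem_allVars.2 (Or.inr (Or.inr ⟨t, ht, Or.inr ⟨k, hk, i, hi, s, hs, rfl⟩⟩))
    have key := cnf_key hτ (hr w) hST (G := fun v => v ∈ V x) h3 (map_tmpl h1 x (P x)) (by
      simp only [tmpl, delL, encL, List.mem_append, List.mem_flatMap, List.mem_map, List.mem_cons,
        List.not_mem_nil, or_false, urange, List.mem_range]
      have a : tt ∈ V x := List.mem_cons_self
      rintro l ((⟨_, ⟨_, ⟨b, _, rfl⟩, rfl | rfl | rfl⟩, rfl | rfl⟩ | rfl) |
        ⟨_, ⟨j, hj, rfl⟩, rfl | rfl | rfl⟩)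
      all_goals first
        | exact a
        | exact mem_allVars.2 (Or.inr (Or.inl ⟨j, hj, rfl⟩)))
      (fun t ht => G1 t ht _ (hQ w t)) (fun t ht k hk i hi => G2 t ht k hk i hi _ ((hr w).lt _ _ _))
    refine ⟨?_, fun v hv => ?_⟩
    · by_contra hf
      have e := (hout w _ (hlen w)).2 (by simpa using hf)
      have a := (key _ le_rfl).2 τ.k1 hτ.1 0 (by omega)
      have b := h3 [(cv (T x).n τ.k1 0 τ.out, false)] List.mem_cons_self (by
        simpa [← e] using G2 _ le_rfl _ hτ.1 0 (by omega) _ ((hr w).lt _ _ _))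
      rw [e] at a
      simp [a] at b
    · rcases mem_allVars.1 hv with rfl | ⟨j, hj, rfl⟩ | ⟨t, ht, ⟨q, hq, rfl⟩ |
        ⟨k, hk, i, hi, s, hs, rfl⟩⟩
      · exact h1.symm
      · exact hρ w ⟨j, hj⟩
      · have a := (key t ht).1
        change decide ((run w t).1 = q) = _
        by_cases e : (run w t).1 = q
        · rw [← e, a]; simp
        · have b := h2 _ (mem_amo.2 ⟨_, G1 t ht _ (hQ w t), _, hv, le_rfl, rfl, rfl,
            by simpa [sv] using e, rfl⟩)
          simpa [e, a] using b
      · have a := (key t ht).2 k hk i hi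
        change decide ((run w t).2 k i = s) = _
        by_cases e : (run w t).2 k i = s
        · rw [← e, a]; simp
        · have b := h2 _ (mem_amo.2 ⟨_, G2 t ht k hk i hi _ ((hr w).lt _ _ _), _, hv,
            by simp [cv], rfl, rfl, by simpa [cv] using e, rfl⟩)
          simpa [e, a] using b
  refine Finset.card_nbij' (fun U (j : Fin (P x).n) => decide (dv 0 j ∈ U))
    (fun w : Fin (P x).n → Bool => (uniq (V x)).toFinset.filter (fun v => ρ w v = true))
    (fun U hU => ?_) (fun w hw => ?_) (fun U hU => ?_) (fun w _ => ?_)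
  · simp only [Finset.coe_filter, Finset.mem_univ, true_and, Set.mem_ofPred_eq] at hU ⊢
    exact (hsound U hU.2).1
  · simp only [Finset.coe_filter, Finset.mem_univ, true_and, Set.mem_ofPred_eq,
      Finset.mem_powerset, Finset.filter_subset] at hw ⊢
    have h1 : ∀ C : Clause, (∀ l ∈ C, l.1 ∈ V x) → Sat (ρ w) C → Sat (fun v => decide
        (v ∈ (uniq (V x)).toFinset.filter (fun v => ρ w v = true))) C := by
      rintro C hC ⟨l, hl, h⟩
      exact ⟨l, hl, by simp [(uniq_spec _).2, hC l hl, h]⟩
    simp only [List.forall_mem_cons, List.mem_append, or_imp, forall_and, List.mem_filter,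
      List.all_eq_true, memb_iff, and_imp]
    refine ⟨h1 _ (by simp [V, allVars]) (by simp [ρ, tt]), fun C hC => ?_, fun C hC hC' =>
      h1 C hC' (cnf_complete (hr w) (fun _ _ => rfl) (fun _ _ _ _ => rfl) ?_ ?_ C hC)⟩
    · obtain ⟨u, hu, v, hv, a1, a2, a3, a4, rfl⟩ := mem_amo.1 hC
      refine h1 _ (by simp [hu, hv]) ?_
      rcases mem_allVars.1 hu with rfl | ⟨j, _, rfl⟩ | ⟨t, _, ⟨q, _, rfl⟩ |
        ⟨k, _, i, _, s, _, rfl⟩⟩ <;>
      rcases mem_allVars.1 hv with rfl | ⟨j', _, rfl⟩ | ⟨t', _, ⟨q', _, rfl⟩ |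
        ⟨k', _, i', _, s', _, rfl⟩⟩ <;>
      simp [tt, dv, sv, cv, ρ, tabVal] at a1 a2 a3 a4 ⊢
      · subst a3
        by_cases e : (run w t).1 = q
        · exact Or.inr (e ▸ a4 rfl)
        · exact Or.inl e
      · obtain ⟨rfl, rfl, rfl⟩ := a3
        by_cases e : (run w t).2 k i = s
        · exact Or.inr (e ▸ a4 rfl rfl rfl)
        · exact Or.inl e
    · intro c hc _
      obtain rfl := List.mem_singleton.1 hc
      rw [map_tmpl rfl]
      simp only [hρ]
    · intro h
      exact Bool.false_ne_true (((hout w _ (hlen w)).1 h).symm.trans hw)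
  · simp only [Finset.coe_filter, Set.mem_ofPred_eq, Finset.mem_powerset] at hU
    ext v
    rw [Finset.mem_filter, hmV]
    refine ⟨fun h => ?_, fun h => ?_⟩
    · simpa [(hsound U hU.2).2 v h.1] using h.2
    · have hv := (hmV v).1 (hU.1 h)
      exact ⟨hv, by simp [(hsound U hU.2).2 v hv, h]⟩
  · funext j
    have : dv 0 j ∈ V x := mem_allVars.2 (Or.inr (Or.inl ⟨j, j.2, rfl⟩))
    simp [(uniq_spec _).2, this, hρ]

end Pool.Agent.Lib.Common.CookLevin
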