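import Pool.Agent.Lib.Common.CookLevin.Qbf

/-!
More polynomial-time arithmetic: division, products, powers of two, binomial coefficients.
-/

set_option autoImplicit false

namespace Pool.Agent.Lib.Common.CookLevin

open Pool.Agent.Lib.MP_acf5a6_lc N487b59b3

variable {α β : Type} [N487b59b3 α] [N487b59b3 β]

theorem headD_filter_zipIdx {β : Type} (l : List β) (i : ℕ) (d : β) :
    ((l.zipIdx.filter (fun x => decide (x.2 = i))).map (fun x => x.1)).headD d = l.getD i d := by
  have key : ∀ (l : List β) (k i : ℕ), (((l.zipIdx k).filter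
      (fun x => decide (x.2 = i + k))).map (fun x => x.1)).headD d = l.getD i d := by
    intro l
    induction l with
    | nil => simp
    | cons a l ih =>
      intro k i
      cases i with
      | zero => simp
      | succ i =>
        have := ih (k + 1) i
        rw [List.zipIdx_cons, List.filter_cons_of_neg (by simp), List.getD_cons_succ, ← this,
          show i + 1 + k = i + (k + 1) by omega]
  exact key l 0 i

@[fun_prop] theorem listGetD_PT {l : α → List β} {i : α → ℕ} {d : α → β} (hl : PT l) (hi : PT i)
    (hd : PT d) : PT (fun a => (l a).getD (i a) (d a)) :=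
  PT.of_eq (f := fun a => (((l a).zipIdx.filter (fun x => decide (x.2 = i a))).map
    (fun x => x.1)).headD (d a)) (by fun_prop) (fun _ => headD_filter_zipIdx _ _ _)

@[fun_prop] theorem natDiv_PT {f g : α → ℕ} (hf : PT f) (hg : PT g) :
    PT (fun a => f a / g a) := by
  have h1 := PT.foldlA (g := fun a (r : ℕ × ℕ) (b : Bool) => if g a ≤ Nat.bit b r.2 then
      (Nat.bit true r.1, Nat.bit b r.2 - g a) else (Nat.bit false r.1, Nat.bit b r.2))
    (h := fun _ => (0, 0)) (l := fun a => (f a).bits.reverse) (by fun_prop) (PT.const _)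
    (by fun_prop) (PB.const 3) (fun a c b => by
      obtain ⟨q, r⟩ := c
      have h2 := sz_bit b r
      have h3 := sz_nat_mono (Nat.sub_le (Nat.bit b r) (g a))
      have h4 := sz_bit true q
      have h5 := sz_bit false q
      split_ifs <;> simp only [sz_pair] <;> omega)
  refine (PT.ite' (p := fun a => g a = 0) (by fun_prop) (PT.const 0) (PT.fst h1)).of_eq
    (fun a => ?_)
  split_ifs with h0
  · simp [h0]
  have h0 : 0 < g a := Nat.pos_of_ne_zero h0
  rw [List.foldl_reverse]
  suffices H : ∀ n : ℕ, n.bits.foldr (fun (b : Bool) (r : ℕ × ℕ) => if g a ≤ Nat.bit b r.2 then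
      (Nat.bit true r.1, Nat.bit b r.2 - g a) else (Nat.bit false r.1, Nat.bit b r.2)) (0, 0) =
      (n / g a, n % g a) by rw [H]
  intro n
  induction n using Nat.binaryRec' with
  | zero => simp
  | bit b n hn ih =>
    rw [Nat.bits_append_bit n b hn, List.foldr_cons, ih]
    have h1 := Nat.mod_lt n h0
    have h2 := Nat.div_add_mod n (g a)
    have h3 : b.toNat ≤ 1 := Bool.toNat_le b
    simp only [Nat.bit_val, Bool.toNat_true, Bool.toNat_false, add_zero]
    split_ifs with h
    · exact Prod.ext_iff.2 (by
        have := (Nat.div_mod_unique (a := 2 * n + b.toNat) (c := 2 * (n % g a) + b.toNat - g a)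
          (d := 2 * (n / g a) + 1) h0).2 ⟨by zify [h] at *; linarith, by omega⟩
        exact ⟨this.1.symm, this.2.symm⟩)
    · exact Prod.ext_iff.2 (by
        have := (Nat.div_mod_unique (a := 2 * n + b.toNat) (c := 2 * (n % g a) + b.toNat)
          (d := 2 * (n / g a)) h0).2 ⟨by linarith, by omega⟩
        exact ⟨this.1.symm, this.2.symm⟩)

theorem sz_nat_mul (m n : ℕ) : sz (m * n) ≤ sz m + sz n := by
  rw [sz_nat, Nat.size_le, pow_add]
  exact Nat.mul_lt_mul'' (lt_two_pow_sz m) (lt_two_pow_sz n)

@[fun_prop] theorem natProd_PT {l : α → List ℕ} (hl : PT l) : PT (fun a => (l a).prod) := by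
  have h1 := PT.foldlA (g := fun (_ : α) (r b : ℕ) => r * b) (h := fun _ => 1) (l := l)
    (by fun_prop) (PT.const _) hl (B := fun x => sz x.2) (PB.of_PT (by fun_prop))
    (fun a c b => sz_nat_mul c b)
  exact h1.of_eq (fun a => (List.prod_eq_foldl).symm)

/-- Powers of two with a unary exponent. -/
def pow2 (u : Un) : ℕ := 2 ^ u.n

@[fun_prop] theorem pow2_PT {u : α → Un} (hu : PT u) : PT (fun a => pow2 (u a)) :=
  (PT.twoPowSz hu).of_eq (fun a => by rw [sz_un, pow2])

/-- Factorials of unary numbers. -/
def ufact (u : Un) : ℕ := u.n.factorial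

@[fun_prop] theorem ufact_PT {u : α → Un} (hu : PT u) : PT (fun a => ufact (u a)) :=
  PT.of_eq (f := fun a => ((urange (u a)).map (fun i => i + 1)).prod) (by fun_prop) (fun a => by
    rw [ufact, urange, ← Finset.prod_range_add_one_eq_factorial]
    rfl)

/-- Binomial coefficients with a unary upper entry. -/
def uchoose (u : Un) (k : ℕ) : ℕ := u.n.choose k

@[fun_prop] theorem uchoose_PT {u : α → Un} {k : α → ℕ} (hu : PT u) (hk : PT k) :
    PT (fun a => uchoose (u a) (k a)) :=
  PT.of_eq (f := fun a => if k a ≤ (u a).n then ((rng (u a) (k a)).map (fun i => (u a).n - i)).prod /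
    ((rng (u a) (k a)).map (fun i => i + 1)).prod else 0) (by unfold rng; fun_prop) (fun a => by
    split_ifs with h
    · rw [rng_eq h, uchoose, Nat.choose_eq_descFactorial_div_factorial,
        ← Finset.prod_range_add_one_eq_factorial, Nat.descFactorial_eq_prod_range]
      rfl
    · exact (Nat.choose_eq_zero_of_lt (by omega)).symm)

/-- A list with unary indices. -/
def uzip {γ : Type} (l : List γ) : List (γ × Un) := l.zipIdx.map (fun x => (x.1, ⟨x.2⟩))

@[fun_prop] theorem uzip_PT {l : α → List β} (hl : PT l) : PT (fun a => uzip (l a)) :=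
  PT.of_eq (f := fun a => (l a).zipIdx.map (fun x => (x.1, ulen (rng (ulen (l a)) x.2))))
    (by unfold rng; fun_prop) (fun a => List.map_congr_left (fun x hx => by
      rw [rng_eq (p := ulen (l a)) (List.snd_lt_of_mem_zipIdx hx).le]
      simp [ulen]))

/-- Membership test. -/
def memb {γ : Type} [DecidableEq γ] (l : List γ) (x : γ) : Bool :=
  !l.all (fun y => !decide (y = x))

@[simp] theorem memb_iff {γ : Type} [DecidableEq γ] {l : List γ} {x : γ} :
    memb l x = true ↔ x ∈ l := by simp [memb]

@[fun_prop] theorem memb_PT [DecidableEq β] {l : α → List β} {x : α → β} (hl : PT l) (hx : PT x) :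
    PT (fun a => memb (l a) (x a)) := by
  unfold memb
  fun_prop

/-- Removal of repetitions. -/
def uniq {γ : Type} [DecidableEq γ] (l : List γ) : List γ :=
  l.foldl (fun c x => cond (memb c x) c (x :: c)) []

@[fun_prop] theorem uniq_PT [DecidableEq β] {l : α → List β} (hl : PT l) :
    PT (fun a => uniq (l a)) :=
  PT.foldlA (g := fun (_ : α) (c : List β) (x : β) => cond (memb c x) c (x :: c)) (by fun_prop)
    (PT.const _) hl (B := fun x => 2 * sz x.2 + 1)
    (((PB.const 2).mul (PB.of_PT (by fun_prop))).add (PB.const 1)) (fun a c b => by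
      cases memb c b <;> simp; omega)

theorem uniq_spec {γ : Type} [DecidableEq γ] (l : List γ) :
    (uniq l).Nodup ∧ ∀ x, x ∈ uniq l ↔ x ∈ l := by
  have key : ∀ (l c : List γ), c.Nodup →
      (l.foldl (fun c x => cond (memb c x) c (x :: c)) c).Nodup ∧
      ∀ x, x ∈ l.foldl (fun c x => cond (memb c x) c (x :: c)) c ↔ x ∈ c ∨ x ∈ l := by
    intro l
    induction l with
    | nil => intro c hc; simpa using hc
    | cons y l ih =>
      intro c hc
      rw [List.foldl_cons]
      cases h : memb c y
      · have hy : y ∉ c := fun h' => by simp [memb_iff.2 h'] at h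
        refine ⟨(ih _ (List.nodup_cons.2 ⟨hy, hc⟩)).1, fun x => ?_⟩
        rw [cond_false, (ih _ (List.nodup_cons.2 ⟨hy, hc⟩)).2]
        simp only [List.mem_cons]
        tauto
      · refine ⟨(ih _ hc).1, fun x => ?_⟩
        rw [cond_true, (ih _ hc).2, List.mem_cons]
        have := memb_iff.1 h
        constructor
        · tauto
        · rintro (h | rfl | h) <;> tauto
  simpa [uniq] using key l [] List.nodup_nil

end Pool.Agent.Lib.Common.CookLevin
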