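import Pool.Agent.Lib.Common.CookLevin.Cnf

/-!
The Cook-Levin theorem for the third level of the polynomial hierarchy, in a layered form:
a for-all / exists / for-all statement about a polynomial-time predicate is translated in
polynomial time into a list of layers of clauses.
-/

set_option autoImplicit false

namespace Pool.Agent.Lib.Common.CookLevin

open Pool.Agent.Lib.MP_acf5a6_lc N487b59b3

/-- Whenever a family of clauses meets every layer, some values of the variables of class `1`
make it unsatisfiable. -/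
def QSat (layers : List (List Clause)) : Prop :=
  ∀ S : Clause → Prop, (∀ l ∈ layers, ∃ C ∈ l, S C) →
    ∃ y : Var → Bool, ∀ z : Var → Bool, (∀ v, v.1 = 1 → z v = y v) → ∃ C, S C ∧ ¬ Sat z C

/-- Evaluation of a polynomial in unary. -/
def upoly (q : Polynomial ℕ) (u : Un) : Un := ⟨q.eval u.n⟩

@[fun_prop] theorem upoly_PT {α : Type} [N487b59b3 α] (q : Polynomial ℕ) {u : α → Un} (hu : PT u) :
    PT (fun a => upoly q (u a)) := by
  induction q using Polynomial.induction_on with
  | C c => exact (PT.const (⟨c⟩ : Un)).of_eq (fun a => by simp [upoly])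
  | add p q hp hq => exact (PT.unAdd hp hq).of_eq (fun a => by simp [upoly, Un.add])
  | monomial n c h =>
    exact (PT.unMul h hu).of_eq (fun a => by simp [upoly, Un.mul, pow_succ, mul_assoc])

/-- The variable forced to be true. -/
def tt : Var := (2, [])

/-- Length flags. -/
def fv (k j : ℕ) : Var := (k, [0, j])

/-- Data bits. -/
def dv (k j : ℕ) : Var := (k, [1, j])

/-- The numbers below `i`, for `i ≤ p`. -/
def rng (p : Un) (i : ℕ) : List ℕ := (urange p).filter (fun j => decide (j < i))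

theorem rng_eq {p : Un} {i : ℕ} (h : i ≤ p.n) : rng p i = List.range i := by
  obtain ⟨n⟩ := p
  obtain ⟨d, rfl⟩ := Nat.exists_eq_add_of_le h
  simp only [rng, urange, List.range_add, List.filter_append]
  rw [List.filter_eq_self.2 (by simp), List.filter_eq_nil_iff.2 (by simp), List.append_nil]

/-- The clause that fails exactly when block `k` has length `i`. -/
def ng (k : ℕ) (p : Un) (i : ℕ) : Clause :=
  (rng p i).map (fun j => (fv k j, false)) ++ (if i < p.n then [(fv k i, true)] else [])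

/-- The first `i` data bits of block `k`. -/
def sb (k : ℕ) (p : Un) (i : ℕ) : List Lit := (rng p i).map (fun j => (dv k j, true))

theorem not_sat_ng {ρ : Var → Bool} {k : ℕ} {p : Un} {i : ℕ} (h : i ≤ p.n) :
    ¬ Sat ρ (ng k p i) ↔ (∀ j < i, ρ (fv k j) = true) ∧ (i < p.n → ρ (fv k i) = false) := by
  rw [ng, rng_eq h, sat_append, not_or]
  refine and_congr ?_ ?_
  · simp [Sat]
  · split_ifs with h' <;> simp [h']

/-- The length of block `k`. -/
def len (ρ : Var → Bool) (k p : ℕ) : ℕ :=
  Nat.find (⟨p, Or.inl le_rfl⟩ : ∃ i, p ≤ i ∨ ρ (fv k i) = false)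

theorem len_le (ρ : Var → Bool) (k p : ℕ) : len ρ k p ≤ p := Nat.find_le (Or.inl le_rfl)

theorem len_iff {ρ : Var → Bool} {k : ℕ} {p : Un} {i : ℕ} (h : i ≤ p.n) :
    ¬ Sat ρ (ng k p i) ↔ len ρ k p.n = i := by
  rw [not_sat_ng h, len, Nat.find_eq_iff]
  constructor
  · rintro ⟨h1, h2⟩
    refine ⟨by by_cases h' : i < p.n; exacts [Or.inr (h2 h'), Or.inl (by omega)], fun j hj => ?_⟩
    simp only [h1 j hj, not_or]
    exact ⟨by omega, by simp⟩
  · rintro ⟨h1, h2⟩
    refine ⟨fun j hj => ?_, fun h' => h1.resolve_left (by omega)⟩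
    simpa using (not_or.1 (h2 j hj)).2

/-- The word written in block `k`. -/
def dec (ρ : Var → Bool) (k p : ℕ) : List Bool :=
  (List.range (len ρ k p)).map (fun j => ρ (dv k j))

theorem length_dec (ρ : Var → Bool) (k p : ℕ) : (dec ρ k p).length ≤ p := by
  simpa [dec] using len_le ρ k p

theorem map_sb (ρ : Var → Bool) (k : ℕ) (p : Un) :
    (sb k p (len ρ k p.n)).map (ev ρ) = dec ρ k p.n := by
  simp [sb, dec, rng_eq (len_le ρ k p.n), ev]

theorem dec_congr {ρ ρ' : Var → Bool} {k p : ℕ}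
    (h : ∀ j < p, ρ (fv k j) = ρ' (fv k j) ∧ ρ (dv k j) = ρ' (dv k j)) :
    dec ρ k p = dec ρ' k p := by
  have h1 := len_le ρ' k p
  have e : len ρ k p = len ρ' k p := by
    rw [← len_iff (p := ⟨p⟩) h1, not_sat_ng h1]
    have := (not_sat_ng (ρ := ρ') (k := k) (p := ⟨p⟩) h1).1 ((len_iff h1).2 rfl)
    exact ⟨fun j hj => by rw [(h j (by omega)).1]; exact this.1 j hj,
      fun hj => by rw [(h _ hj).1]; exact this.2 hj⟩
  simp only [dec, e]
  exact List.map_congr_left (fun j hj => (h j (by have := List.mem_range.1 hj; omega)).2)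

/-- An assignment spelling the word `a` in every block. -/
def spell (a : List Bool) (v : Var) : Bool :=
  match v.2 with
  | [0, j] => decide (j < a.length)
  | [1, j] => a.getD j false
  | _ => true

theorem dec_spell {a : List Bool} {k p : ℕ} (h : a.length ≤ p) : dec (spell a) k p = a := by
  have e : len (spell a) k p = a.length := by
    rw [← len_iff (p := ⟨p⟩) h, not_sat_ng h]
    simp [spell, fv]
  rw [dec, e]
  refine List.ext_getElem (by simp) (fun i h1 h2 => ?_)
  simp [spell, dv, h2]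

/-- The values of the tableau variables along a run. -/
def tabVal (run : ℕ → Conf) : List ℕ → Bool
  | [t, q] => decide ((run t).1 = q)
  | [t, k, i, s] => decide ((run t).2 k i = s)
  | _ => false

/-- The input cases. -/
def inCases (tm : List Lit × List Lit × List Lit × List Lit → List Lit) (x : List Bool) (p : Un) :
    List (Clause × List Lit) :=
  (urange (p.add ⟨1⟩)).flatMap fun i => (urange (p.add ⟨1⟩)).flatMap fun j =>
    (urange (p.add ⟨1⟩)).map fun l =>
      (ng 0 p i ++ (ng 1 p j ++ ng 2 p l),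
        tm (x.map (fun b => (tt, b)), sb 0 p i, sb 1 p j, sb 2 p l))

/-- The layers. -/
def layers (p : Un) (φ : List Clause) : List (List Clause) :=
  ((urange p).flatMap (fun j => [fv 0 j, dv 0 j])).map (fun v => [[(v, true)], [(v, false)]]) ++
    ([(tt, true)] :: φ).map (fun C => [C])

theorem qsat_hard {α : Type} [N487b59b3 α] {R : α → Bool} (hR : N68a2faeb.IsPolyTime R)
    (β : Bool) (p : Polynomial ℕ) (mk : List Bool → List Bool → List Bool → List Bool → α)
    (tm : List Lit × List Lit × List Lit × List Lit → List Lit) (hP : PT tm)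
    (htm : ∀ ρ : Var → Bool, ρ tt = true → ∀ x a b c : List Lit, (tm (x, a, b, c)).map (ev ρ) =
      bitEncode (mk (x.map (ev ρ)) (a.map (ev ρ)) (b.map (ev ρ)) (c.map (ev ρ)))) :
    ∃ F : List Bool → List (List Clause), PT F ∧ (∀ x, 2 ≤ (F x).length) ∧ ∀ x, QSat (F x) ↔
      ∀ a : List Bool, a.length ≤ p.eval x.length → ∃ b : List Bool, b.length ≤ p.eval x.length ∧
        ∀ c : List Bool, c.length ≤ p.eval x.length → R (mk x a b c) = β := by
  classical
  obtain ⟨hR⟩ := hR
  obtain ⟨τ, time, hτ, hrun⟩ := exists_table (ea := fun a : α => bitEncode a) hR β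
  let P : List Bool → Un := fun x => upoly p (ulen x)
  let cs : List Bool → List (Clause × List Lit) := fun x => inCases tm x (P x)
  let T : List Bool → Un := fun x => upoly time (ulen ((cs x).flatMap (fun c => c.2)))
  let S : List Bool → Un := fun x => ((T x).mul ⟨τ.D⟩).add ⟨1⟩
  have hP' : PT P := by fun_prop
  have hcs : PT cs := by
    simp only [cs]
    unfold inCases ng sb rng fv dv
    fun_prop
  have hT : PT T := by fun_prop
  have hS : PT S := by fun_prop
  have hφ := cnf_PT τ hT hS hcs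
  refine ⟨fun x => layers (P x) (cnf τ (T x) (S x) (cs x)), ?_, fun x => ?_, fun x => ?_⟩
  · unfold layers fv dv
    fun_prop
  · simp only [layers, cnf, List.length_append, List.length_map, List.length_cons]
    omega
  have hp : (P x).n = p.eval x.length := rfl
  have hx : ∀ ρ : Var → Bool, ρ tt = true → (x.map (fun b => (tt, b))).map (ev ρ) = x := by
    intro ρ h
    rw [List.map_map]
    conv_rhs => rw [← List.map_id x]
    exact List.map_congr_left (fun b _ => by cases b <;> simp [ev, h])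
  have hall : ∀ ρ : Var → Bool, ρ tt = true → ∀ c ∈ cs x, ¬ Sat ρ c.1 → c.2.map (ev ρ) =
      bitEncode (mk x (dec ρ 0 (P x).n) (dec ρ 1 (P x).n) (dec ρ 2 (P x).n)) := by
    intro ρ h c hc hg
    simp only [cs, inCases, List.mem_flatMap, List.mem_map, urange, Un.add, List.mem_range] at hc
    obtain ⟨i, hi, j, hj, l, hl, rfl⟩ := hc
    simp only [sat_append, not_or] at hg
    obtain rfl := (len_iff (by omega)).1 hg.1
    obtain rfl := (len_iff (by omega)).1 hg.2.1
    obtain rfl := (len_iff (by omega)).1 hg.2.2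
    rw [htm ρ h, hx ρ h, map_sb, map_sb, map_sb]
  have hex : ∀ ρ : Var → Bool, ∃ c ∈ cs x, ¬ Sat ρ c.1 := by
    intro ρ
    have h0 := len_le ρ 0 (P x).n
    have h1 := len_le ρ 1 (P x).n
    have h2 := len_le ρ 2 (P x).n
    refine ⟨(ng 0 (P x) (len ρ 0 (P x).n) ++ (ng 1 (P x) (len ρ 1 (P x).n) ++
      ng 2 (P x) (len ρ 2 (P x).n)), tm (x.map (fun b => (tt, b)), sb 0 (P x) (len ρ 0 (P x).n),
        sb 1 (P x) (len ρ 1 (P x).n), sb 2 (P x) (len ρ 2 (P x).n))), ?_, ?_⟩
    · simp only [cs, inCases, List.mem_flatMap, List.mem_map, urange, Un.add, List.mem_range]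
      exact ⟨_, Nat.lt_succ_of_le h0, _, Nat.lt_succ_of_le h1, _, Nat.lt_succ_of_le h2, rfl⟩
    · simp only [sat_append, not_or]
      exact ⟨(len_iff h0).2 rfl, (len_iff h1).2 rfl, (len_iff h2).2 rfl⟩
  have htime : ∀ ρ : Var → Bool, ρ tt = true → time.eval (bitEncode
      (mk x (dec ρ 0 (P x).n) (dec ρ 1 (P x).n) (dec ρ 2 (P x).n))).length ≤ (T x).n := by
    intro ρ h
    obtain ⟨c, hc, hg⟩ := hex ρ
    rw [← hall ρ h c hc hg, List.length_map]
    exact eval_mono _ (List.Sublist.length_le (List.sublist_flatten_of_mem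
      (List.mem_map.2 ⟨c, hc, rfl⟩)))
  have hmem : ∀ l, l ∈ layers (P x) (cnf τ (T x) (S x) (cs x)) ↔
      (∃ j < (P x).n, ∃ v, (v = fv 0 j ∨ v = dv 0 j) ∧ l = [[(v, true)], [(v, false)]]) ∨
        l = [[(tt, true)]] ∨ ∃ C ∈ cnf τ (T x) (S x) (cs x), l = [C] := by
    intro l
    simp only [layers, List.mem_append, List.mem_map, List.mem_flatMap, urange, List.mem_range,
      List.mem_cons, List.not_mem_nil, or_false]
    constructor
    · rintro (⟨v, ⟨j, hj, hv⟩, rfl⟩ | ⟨C, rfl | hC, rfl⟩)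
      · exact Or.inl ⟨j, hj, v, hv, rfl⟩
      · exact Or.inr (Or.inl rfl)
      · exact Or.inr (Or.inr ⟨C, hC, rfl⟩)
    · rintro (⟨j, hj, v, hv, rfl⟩ | rfl | ⟨C, hC, rfl⟩)
      · exact Or.inl ⟨v, ⟨j, hj, hv⟩, rfl⟩
      · exact Or.inr ⟨_, Or.inl rfl, rfl⟩
      · exact Or.inr ⟨C, Or.inr hC, rfl⟩
  rw [← hp]
  constructor
  · intro hq a ha
    obtain ⟨y, hy⟩ := hq (fun C => (∃ v : Var, v.1 = 0 ∧ C = [(v, spell a v)]) ∨
        C = [(tt, true)] ∨ C ∈ cnf τ (T x) (S x) (cs x)) (fun l hl => by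
      rcases (hmem l).1 hl with ⟨j, _, v, hv, rfl⟩ | rfl | ⟨C, hC, rfl⟩
      · refine ⟨[(v, spell a v)], by cases spell a v <;> simp, Or.inl ⟨v, ?_, rfl⟩⟩
        rcases hv with rfl | rfl <;> rfl
      · exact ⟨_, List.mem_singleton_self _, Or.inr (Or.inl rfl)⟩
      · exact ⟨_, List.mem_singleton_self _, Or.inr (Or.inr hC)⟩)
    refine ⟨dec y 1 (P x).n, length_dec _ _ _, fun c hc => ?_⟩
    by_contra hRc
    obtain ⟨run, hr, hout⟩ := hrun (mk x a (dec y 1 (P x).n) c)
    let z : Var → Bool := fun v => if v.1 = 0 then spell a v else if v.1 = 1 then y v else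
      if v.1 = 2 then spell c v else tabVal run v.2
    have h1 : z tt = true := rfl
    have e0 : dec z 0 (P x).n = a :=
      (dec_congr (ρ' := spell a) (fun j _ => ⟨rfl, rfl⟩)).trans (dec_spell (k := 0) ha)
    have e1 : dec z 1 (P x).n = dec y 1 (P x).n := dec_congr (fun j _ => ⟨rfl, rfl⟩)
    have e2 : dec z 2 (P x).n = c :=
      (dec_congr (ρ' := spell c) (fun j _ => ⟨rfl, rfl⟩)).trans (dec_spell (k := 2) hc)
    have h2 := hall z h1
    have h3 := htime z h1
    rw [e0, e1, e2] at h2 h3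
    obtain ⟨C, hC, hC'⟩ := hy z (fun v hv => by simp [z, hv])
    refine hC' ?_
    rcases hC with ⟨v, hv, rfl⟩ | rfl | hC
    · simp [z, hv]
    · simp [h1]
    · exact cnf_complete hr (fun _ _ => rfl) (fun _ _ _ _ => rfl) h2
        (fun h => hRc ((hout _ h3).1 h)) C hC
  · intro hq Sel hSel
    let ρa : Var → Bool := fun v => decide (Sel [(v, true)])
    obtain ⟨b, hb, hq⟩ := hq (dec ρa 0 (P x).n) (length_dec _ _ _)
    refine ⟨spell b, fun z hz => ?_⟩
    by_contra hno
    push Not at hno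
    have h1 : z tt = true := by
      obtain ⟨C, hC, hC'⟩ := hSel _ ((hmem _).2 (Or.inr (Or.inl rfl)))
      obtain rfl := List.mem_singleton.1 hC
      simpa using hno _ hC'
    have h2 : ∀ C ∈ cnf τ (T x) (S x) (cs x), Sat z C := by
      intro C hC
      obtain ⟨C', hC1, hC'⟩ := hSel _ ((hmem _).2 (Or.inr (Or.inr ⟨C, hC, rfl⟩)))
      obtain rfl := List.mem_singleton.1 hC1
      exact hno _ hC'
    have h3 : ∀ j < (P x).n, ∀ v, v = fv 0 j ∨ v = dv 0 j → z v = ρa v := by
      intro j hj v hv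
      by_cases h : Sel [(v, true)]
      · simpa [ρa, h] using hno _ h
      · obtain ⟨C, hC, hC'⟩ := hSel _ ((hmem _).2 (Or.inl ⟨j, hj, v, hv, rfl⟩))
        simp only [List.mem_cons, List.not_mem_nil, or_false] at hC
        rcases hC with rfl | rfl
        · exact absurd hC' h
        · simpa [ρa, h] using hno _ hC'
    have e0 : dec z 0 (P x).n = dec ρa 0 (P x).n :=
      dec_congr (fun j hj => ⟨h3 j hj _ (Or.inl rfl), h3 j hj _ (Or.inr rfl)⟩)
    have e1 : dec z 1 (P x).n = b :=
      (dec_congr (ρ' := spell b) (fun j _ => ⟨hz _ rfl, hz _ rfl⟩)).trans (dec_spell (k := 1) hb)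
    obtain ⟨run, hr, hout⟩ := hrun (mk x (dec z 0 (P x).n) (dec z 1 (P x).n) (dec z 2 (P x).n))
    obtain ⟨c, hc, hg⟩ := hex z
    refine cnf_sound hτ hr (by simp [S, Un.add, Un.mul]) h2 hc hg (hall z h1 c hc hg) ?_
    refine (hout _ (htime z h1)).2 ?_
    rw [e0, e1]
    exact hq _ (length_dec _ _ _)

end Pool.Agent.Lib.Common.CookLevin
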