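import Pool.Agent.Lib.MP_acf5a6_lc.Check

/-!
Locality of the step function of Mathlib's multi-stack machines: a polynomial-time machine is
described by a finite table of local rules acting on arrays of natural numbers.
-/

set_option autoImplicit false

namespace Pool.Agent.Lib.Common.CookLevin

open Turing Function

/-- A rule: old state, window facts `(stack, position, symbol)`, new state, and for each stack the
word replacing the window. -/
abbrev Row : Type := ℕ × List (ℕ × ℕ × ℕ) × ℕ × List (ℕ × List ℕ)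

/-- A coded configuration: state and cells. -/
abbrev Conf : Type := ℕ × (ℕ → ℕ → ℕ)

/-- The rule applies to the configuration. -/
def Match (r : Row) (c : Conf) : Prop := c.1 = r.1 ∧ ∀ w ∈ r.2.1, c.2 w.1 w.2.1 = w.2.2

/-- The effect of a rule. -/
def Apply (D : ℕ) (r : Row) (c c' : Conf) : Prop :=
  c'.1 = r.2.2.1 ∧ ∀ e ∈ r.2.2.2, (∀ x ∈ e.2.zipIdx, c'.2 e.1 x.2 = x.1) ∧
    ∀ i, c'.2 e.1 (i + e.2.length) = c.2 e.1 (i + D)

/-- The finite description of a machine. -/
structure Table where
  nK : ℕ
  D : ℕ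
  nS : ℕ
  q0 : ℕ
  k0 : ℕ
  k1 : ℕ
  cF : ℕ
  cT : ℕ
  out : ℕ
  rows : List Row

/-- Well-formed tables. -/
def Table.Good (τ : Table) : Prop :=
  τ.k1 < τ.nK ∧ ∀ r ∈ τ.rows, (∀ w ∈ r.2.1, w.1 < τ.nK ∧ w.2.1 < τ.D) ∧
    ∀ k < τ.nK, ∃ e ∈ r.2.2.2, e.1 = k

/-- A run of the table on the input `I`. -/
structure Table.Run (τ : Table) (I : List Bool) (run : ℕ → Conf) : Prop where
  st0 : (run 0).1 = τ.q0
  other : ∀ k, k ≠ τ.k0 → ∀ i, (run 0).2 k i = 0
  inp : ∀ x ∈ I.zipIdx, (run 0).2 τ.k0 x.2 = cond x.1 τ.cT τ.cF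
  blank : ∀ i, (run 0).2 τ.k0 (i + I.length) = 0
  ex : ∀ t, ∃ r ∈ τ.rows, Match r (run t)
  app : ∀ t, ∀ r ∈ τ.rows, Match r (run t) → Apply τ.D r (run t) (run (t + 1))
  lt : ∀ t k i, (run t).2 k i < τ.nS

section loc

variable {K : Type} [DecidableEq K] {Γ : K → Type} {Λ σ : Type}

/-- How deep a statement looks into the stacks. -/
def depth : TM2.Stmt Γ Λ σ → ℕ
  | .push _ _ q => depth q
  | .peek _ _ q => depth q + 1
  | .pop _ _ q => depth q + 1
  | .load _ q => depth q
  | .branch _ q₁ q₂ => depth q₁ + depth q₂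
  | .goto _ => 0
  | .halt => 0

/-- The symbols a statement may push. -/
def pushes : TM2.Stmt Γ Λ σ → Set (Σ k, Γ k)
  | .push k f q => Set.range (fun v => (⟨k, f v⟩ : Σ k, Γ k)) ∪ pushes q
  | .peek _ _ q => pushes q
  | .pop _ _ q => pushes q
  | .load _ q => pushes q
  | .branch _ q₁ q₂ => pushes q₁ ∪ pushes q₂
  | .goto _ => ∅
  | .halt => ∅

omit [DecidableEq K] in
theorem pushes_finite [Finite σ] (q : TM2.Stmt Γ Λ σ) : (pushes q).Finite := by
  induction q with
  | push k f q ih => exact (Set.finite_range _).union ih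
  | peek _ _ _ ih => exact ih
  | pop _ _ _ ih => exact ih
  | load _ _ ih => exact ih
  | branch _ _ _ ih₁ ih₂ => exact ih₁.union ih₂
  | goto _ => exact Set.finite_empty
  | halt => exact Set.finite_empty

theorem stepAux_mem (A : Set (Σ k, Γ k)) (q : TM2.Stmt Γ Λ σ) (hq : pushes q ⊆ A) :
    ∀ (v : σ) (S : ∀ k, List (Γ k)), (∀ k, ∀ a ∈ S k, (⟨k, a⟩ : Σ k, Γ k) ∈ A) →
      ∀ k, ∀ a ∈ (TM2.stepAux q v S).stk k, (⟨k, a⟩ : Σ k, Γ k) ∈ A := by
  induction q with
  | push k f q ih =>
    intro v S hS
    refine ih (Set.subset_union_right.trans hq) v _ (fun j a ha => ?_)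
    by_cases h : j = k
    · subst h
      rw [update_self] at ha
      rcases List.mem_cons.1 ha with rfl | ha
      · exact hq (Or.inl ⟨v, rfl⟩)
      · exact hS _ _ ha
    · rw [update_of_ne h] at ha; exact hS _ _ ha
  | peek k f q ih => intro v S hS; exact ih hq _ _ hS
  | pop k f q ih =>
    intro v S hS
    refine ih hq _ _ (fun j a ha => ?_)
    by_cases h : j = k
    · subst h
      rw [update_self] at ha
      exact hS _ _ (List.mem_of_mem_tail ha)
    · rw [update_of_ne h] at ha; exact hS _ _ ha
  | load f q ih => intro v S hS; exact ih hq _ _ hS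
  | branch f q₁ q₂ ih₁ ih₂ =>
    intro v S hS
    cases h : f v
    · simp only [TM2.stepAux, h, cond_false]
      exact ih₂ (Set.subset_union_right.trans hq) _ _ hS
    · simp only [TM2.stepAux, h, cond_true]
      exact ih₁ (Set.subset_union_left.trans hq) _ _ hS
  | goto f => intro v S hS; exact hS
  | halt => intro v S hS; exact hS

/-- Append words at the bottoms of the stacks. -/
def ext (c : TM2.Cfg Γ Λ σ) (R : ∀ k, List (Γ k)) : TM2.Cfg Γ Λ σ :=
  ⟨c.l, c.var, fun k => c.stk k ++ R k⟩

theorem stepAux_ext (R : ∀ k, List (Γ k)) (q : TM2.Stmt Γ Λ σ) :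
    ∀ (v : σ) (S : ∀ k, List (Γ k)), (∀ k, depth q ≤ (S k).length ∨ R k = []) →
      TM2.stepAux q v (fun k => S k ++ R k) = ext (TM2.stepAux q v S) R := by
  have hd : ∀ (k : K) (S : ∀ k, List (Γ k)) (d : ℕ), d + 1 ≤ (S k).length ∨ R k = [] →
      (S k ++ R k).head? = (S k).head? ∧ (S k ++ R k).tail = (S k).tail ++ R k := by
    intro k S d h
    rcases h with h | h
    · cases h' : S k with
      | nil => simp [h'] at h
      | cons a l => simp
    · simp [h]
  induction q with
  | push k f q ih =>
    intro v S hS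
    simp only [TM2.stepAux]
    rw [← ih v (update S k (f v :: S k)) (fun j => ?_)]
    · congr 1
      funext j
      by_cases h : j = k
      · subst h; simp
      · simp [update_of_ne h]
    · by_cases h : j = k
      · subst h
        rcases hS j with h | h
        · left; simp only [depth] at h; simp; omega
        · right; exact h
      · rw [update_of_ne h]; exact hS j
  | peek k f q ih =>
    intro v S hS
    simp only [TM2.stepAux]
    rw [(hd k S _ (hS k)).1]
    exact ih _ S (fun j => (hS j).imp (fun h => by simp only [depth] at h; omega) id)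
  | pop k f q ih =>
    intro v S hS
    simp only [TM2.stepAux]
    rw [(hd k S _ (hS k)).1, (hd k S _ (hS k)).2,
      ← ih _ (update S k (S k).tail) (fun j => ?_)]
    · congr 1
      funext j
      by_cases h : j = k
      · subst h; simp
      · simp [update_of_ne h]
    · by_cases h : j = k
      · subst h
        rcases hS j with h | h
        · left; simp only [depth] at h; simp; omega
        · right; exact h
      · rw [update_of_ne h]
        exact (hS j).imp (fun h => by simp only [depth] at h; omega) id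
  | load f q ih => intro v S hS; exact ih _ S hS
  | branch f q₁ q₂ ih₁ ih₂ =>
    intro v S hS
    cases h : f v
    · simp only [TM2.stepAux, h, cond_false]
      exact ih₂ _ S (fun j => (hS j).imp (fun h => by simp only [depth] at h; omega) id)
    · simp only [TM2.stepAux, h, cond_true]
      exact ih₁ _ S (fun j => (hS j).imp (fun h => by simp only [depth] at h; omega) id)
  | goto f => intro v S _; rfl
  | halt => intro v S _; rfl

/-- The total step function. -/
def nxt (M : Λ → TM2.Stmt Γ Λ σ) (c : TM2.Cfg Γ Λ σ) : TM2.Cfg Γ Λ σ := (TM2.step M c).getD c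

/-- Truncation of the stacks. -/
def trunc (D : ℕ) (c : TM2.Cfg Γ Λ σ) : TM2.Cfg Γ Λ σ := ⟨c.l, c.var, fun k => (c.stk k).take D⟩

theorem nxt_local (M : Λ → TM2.Stmt Γ Λ σ) (D : ℕ) (hD : ∀ l, depth (M l) ≤ D)
    (c : TM2.Cfg Γ Λ σ) : nxt M c = ext (nxt M (trunc D c)) (fun k => (c.stk k).drop D) := by
  obtain ⟨l, v, S⟩ := c
  cases l with
  | none => simp [nxt, trunc, ext]
  | some l =>
    simp only [nxt, trunc, TM2.step, Option.getD_some]
    rw [← stepAux_ext]
    · simp
    · intro k
      by_cases h : D ≤ (S k).length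
      · left; simp [h, hD l]
      · right; simp; omega

theorem nxt_mem (M : Λ → TM2.Stmt Γ Λ σ) (A : Set (Σ k, Γ k)) (hA : ∀ l, pushes (M l) ⊆ A)
    (c : TM2.Cfg Γ Λ σ) (hc : ∀ k, ∀ a ∈ c.stk k, (⟨k, a⟩ : Σ k, Γ k) ∈ A) :
    ∀ k, ∀ a ∈ (nxt M c).stk k, (⟨k, a⟩ : Σ k, Γ k) ∈ A := by
  obtain ⟨l, v, S⟩ := c
  cases l with
  | none => exact hc
  | some l => exact stepAux_mem A _ (hA l) v S hc

theorem nxt_iter (M : Λ → TM2.Stmt Γ Λ σ) (n : ℕ) : ∀ (c d : TM2.Cfg Γ Λ σ),
    (flip bind (TM2.step M))^[n] (some c) = some d → (nxt M)^[n] c = d := by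
  induction n with
  | zero => intro c d h; simpa using h
  | succ n ih =>
    intro c d h
    rw [iterate_succ_apply] at h ⊢
    cases h' : TM2.step M c with
    | none =>
      have e : flip bind (TM2.step M) (some c) = none := h'
      rw [e, iterate_fixed (f := flip bind (TM2.step M)) (x := none) rfl] at h
      cases h
    | some c' =>
      have e : flip bind (TM2.step M) (some c) = some c' := h'
      rw [e] at h
      have : nxt M c = c' := by simp [nxt, h']
      rw [this]; exact ih _ _ h

end loc

theorem getD_inj {γ : Type} (f : γ → ℕ) (A : Set γ) (hf : Set.InjOn f A) (h0 : ∀ a, f a ≠ 0) :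
    ∀ (D : ℕ) (l l' : List γ), (∀ a ∈ l, a ∈ A) → (∀ a ∈ l', a ∈ A) →
      (∀ i < D, (l.map f).getD i 0 = (l'.map f).getD i 0) → l.take D = l'.take D := by
  intro D
  induction D with
  | zero => simp
  | succ D ih =>
    intro l l' hl hl' h
    have h1 := h 0 (by omega)
    cases l with
    | nil =>
      cases l' with
      | nil => rfl
      | cons b l' => exact absurd (by simpa using h1.symm) (h0 b)
    | cons a l =>
      cases l' with
      | nil => exact absurd (by simpa using h1) (h0 a)
      | cons b l' =>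
        have e : a = b := hf (hl a List.mem_cons_self) (hl' b List.mem_cons_self) (by simpa using h1)
        subst e
        simp only [List.take_succ_cons, List.cons.injEq, true_and]
        exact ih l l' (fun x hx => hl x (List.mem_cons_of_mem _ hx))
          (fun x hx => hl' x (List.mem_cons_of_mem _ hx))
          (fun i hi => by simpa using h (i + 1) (by omega))

end Pool.Agent.Lib.Common.CookLevin
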