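import Pool.Agent.Lib.Common.CookLevin.Tab

/-!
Every polynomial-time decision procedure is described by a finite table of local rules.
-/

set_option autoImplicit false

namespace Pool.Agent.Lib.Common.CookLevin

open Turing Function

section code

variable {K : Type} [DecidableEq K] {Γ : K → Type} {Λ σ : Type} {n : ℕ}

/-- The coded configuration. -/
def conf (e : K ≃ Fin n) (sc : Option Λ × σ → ℕ) (cd : (Σ k, Γ k) → ℕ) (c : TM2.Cfg Γ Λ σ) :
    Conf :=
  (sc (c.l, c.var), fun k i => if h : k < n then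
    ((c.stk (e.symm ⟨k, h⟩)).map (fun a => cd ⟨_, a⟩)).getD i 0 else 0)

omit [DecidableEq K] in
theorem conf_cell (e : K ≃ Fin n) (sc : Option Λ × σ → ℕ) (cd : (Σ k, Γ k) → ℕ)
    (c : TM2.Cfg Γ Λ σ) (k : K) (i : ℕ) :
    (conf e sc cd c).2 (e k) i = ((c.stk k).map (fun a => cd ⟨k, a⟩)).getD i 0 := by
  simp only [conf, Fin.is_lt, dif_pos, Fin.eta]
  have : ∀ j, j = k → ((c.stk j).map (fun a => cd ⟨j, a⟩)).getD i 0 =
      ((c.stk k).map (fun a => cd ⟨k, a⟩)).getD i 0 := by rintro _ rfl; rfl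
  exact this _ (e.symm_apply_apply k)

/-- The rule read off from a truncated configuration. -/
def rowOf (M : Λ → TM2.Stmt Γ Λ σ) (D : ℕ) (e : K ≃ Fin n) (sc : Option Λ × σ → ℕ)
    (cd : (Σ k, Γ k) → ℕ) (c : TM2.Cfg Γ Λ σ) : Row :=
  (sc (c.l, c.var),
    (List.range n).flatMap (fun k => (List.range D).map (fun i => (k, i, (conf e sc cd c).2 k i))),
    sc ((nxt M c).l, (nxt M c).var),
    (List.finRange n).map (fun k : Fin n =>
      (k.1, ((nxt M c).stk (e.symm k)).map (fun a => cd ⟨_, a⟩))))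

theorem match_rowOf (M : Λ → TM2.Stmt Γ Λ σ) (D : ℕ) (e : K ≃ Fin n) (sc : Option Λ × σ → ℕ)
    (cd : (Σ k, Γ k) → ℕ) (c : TM2.Cfg Γ Λ σ) :
    Match (rowOf M D e sc cd (trunc D c)) (conf e sc cd c) := by
  refine ⟨rfl, fun w hw => ?_⟩
  simp only [rowOf, List.mem_flatMap, List.mem_range, List.mem_map] at hw
  obtain ⟨k, hk, i, hi, rfl⟩ := hw
  simp only [conf, trunc, hk, dif_pos, List.map_take, List.getD_eq_getElem?_getD,
    List.getElem?_take, hi, if_pos]

theorem apply_rowOf (M : Λ → TM2.Stmt Γ Λ σ) (D : ℕ) (hD : ∀ l, depth (M l) ≤ D) (e : K ≃ Fin n)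
    (sc : Option Λ × σ → ℕ) (hsc : Injective sc) (cd : (Σ k, Γ k) → ℕ) (A : Set (Σ k, Γ k))
    (hcd : Set.InjOn cd A) (h0 : ∀ a, cd a ≠ 0) (c c' : TM2.Cfg Γ Λ σ)
    (hc : ∀ k, ∀ a ∈ c.stk k, (⟨k, a⟩ : Σ k, Γ k) ∈ A)
    (hc' : ∀ k, ∀ a ∈ c'.stk k, (⟨k, a⟩ : Σ k, Γ k) ∈ A) (hl : ∀ k, (c'.stk k).length ≤ D)
    (hm : Match (rowOf M D e sc cd c') (conf e sc cd c)) :
    Apply D (rowOf M D e sc cd c') (conf e sc cd c) (conf e sc cd (nxt M c)) := by
  have e1 : c' = trunc D c := by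
    obtain ⟨l, v, S⟩ := c
    obtain ⟨l', v', S'⟩ := c'
    have h1 := hsc hm.1
    simp only [Prod.mk.injEq] at h1
    obtain ⟨rfl, rfl⟩ := h1
    simp only [trunc]
    congr 1
    funext k
    rw [← List.take_of_length_le (l := S' k) (hl k)]
    refine getD_inj (fun a => cd ⟨k, a⟩) {a | (⟨k, a⟩ : Σ k, Γ k) ∈ A}
      (fun a ha b hb h => by simpa using hcd ha hb h) (fun a => h0 _) D _ _ (hc' k) (hc k)
      (fun i hi => ?_)
    have := hm.2 (e k, i, (conf e sc cd ⟨l, v, S'⟩).2 (e k) i) (by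
      simp only [rowOf, List.mem_flatMap, List.mem_range, List.mem_map]
      exact ⟨e k, (e k).2, i, hi, rfl⟩)
    simp only [conf_cell] at this
    exact this.symm
  have e2 := nxt_local M D hD c
  rw [← e1] at e2
  refine ⟨by rw [e2]; rfl, fun x hx => ?_⟩
  simp only [rowOf, List.mem_map] at hx
  obtain ⟨k, _, rfl⟩ := hx
  obtain ⟨k, rfl⟩ := e.surjective k
  have e3 : ∀ j, j = k → ((nxt M c').stk j).map (fun a => cd ⟨j, a⟩) =
      ((nxt M c').stk k).map (fun a => cd ⟨k, a⟩) := by rintro _ rfl; rfl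
  simp only [conf_cell, e3 _ (e.symm_apply_apply k)]
  rw [e2]
  simp only [ext, List.map_append]
  refine ⟨fun y hy => ?_, fun i => ?_⟩
  · obtain ⟨s, i⟩ := y
    obtain ⟨hi, hs⟩ := List.mem_zipIdx' hy
    rw [List.getD_append _ _ _ _ hi, List.getD_eq_getElem _ _ hi]
    exact hs.symm
  · rw [List.getD_append_right _ _ _ _ (by omega), Nat.add_sub_cancel, List.map_drop,
      List.getD_eq_getElem?_getD, List.getD_eq_getElem?_getD, List.getElem?_drop, add_comm]

omit [DecidableEq K] in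
theorem cfg_finite [Finite K] [Finite Λ] [Finite σ] (A : Set (Σ k, Γ k)) (hA : A.Finite) (D : ℕ) :
    {c : TM2.Cfg Γ Λ σ | (∀ k, ∀ a ∈ c.stk k, (⟨k, a⟩ : Σ k, Γ k) ∈ A) ∧
      ∀ k, (c.stk k).length ≤ D}.Finite := by
  have h1 : ∀ k, {l : List (Γ k) | (∀ a ∈ l, (⟨k, a⟩ : Σ k, Γ k) ∈ A) ∧ l.length ≤ D}.Finite := by
    intro k
    have h2 : {a : Γ k | (⟨k, a⟩ : Σ k, Γ k) ∈ A}.Finite :=
      hA.preimage (fun a _ b _ h => by simpa using h)
    have := h2.to_subtype
    refine ((List.finite_length_le {a : Γ k | (⟨k, a⟩ : Σ k, Γ k) ∈ A} D).image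
      (List.map Subtype.val)).subset ?_
    rintro l ⟨h3, h4⟩
    exact ⟨l.attachWith _ h3, (List.length_attachWith (H := h3)).le.trans h4,
      List.attachWith_map_subtype_val h3⟩
  have h2 := (Set.finite_univ (α := Option Λ × σ)).prod (Set.Finite.pi' h1)
  refine (h2.image (fun x => (⟨x.1.1, x.1.2, x.2⟩ : TM2.Cfg Γ Λ σ))).subset ?_
  rintro ⟨l, v, S⟩ ⟨h3, h4⟩
  exact ⟨((l, v), S), ⟨trivial, fun k => ⟨h3 k, h4 k⟩⟩, rfl⟩

end code

theorem exists_table {α : Type} {ea : α → List Bool} {R : α → Bool}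
    (h : TM2ComputableInPolyTime ea (fun b => [b]) R) (β : Bool) :
    ∃ (τ : Table) (time : Polynomial ℕ), τ.Good ∧ ∀ a, ∃ run, τ.Run (ea a) run ∧
      ∀ T, time.eval (ea a).length ≤ T → ((run T).2 τ.k1 0 = τ.out ↔ R a = β) := by
  classical
  obtain ⟨⟨tm, ι, o⟩, time, hout⟩ := h
  let := tm.kFin
  let := tm.ΛFin
  let := tm.σFin
  let A : Set (Σ k, tm.Γ k) := (⋃ l, pushes (tm.m l)) ∪
    (Set.range (fun b => ⟨tm.k₀, ι.symm b⟩) ∪ Set.range (fun b => ⟨tm.k₁, o.symm b⟩))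
  have hA : A.Finite := (Set.finite_iUnion (fun l => pushes_finite _)).union
    ((Set.finite_range _).union (Set.finite_range _))
  let Al := hA.toFinset.toList
  let cd : (Σ k, tm.Γ k) → ℕ := fun a => Al.idxOf a + 1
  have hcd : Set.InjOn cd A := by
    intro a ha b hb h
    have h1 : a ∈ Al := by simpa [Al] using ha
    exact (List.idxOf_inj h1).1 (by simpa [cd] using h)
  have h0 : ∀ a, cd a ≠ 0 := fun a => by simp [cd]
  have hlt : ∀ a, cd a < Al.length + 2 := fun a => by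
    have := List.idxOf_le_length (a := a) (l := Al)
    simp only [cd]; omega
  let e := Fintype.equivFin tm.K
  let sc : Option tm.Λ × tm.σ → ℕ := fun x => Fintype.equivFin _ x
  have hsc : Injective sc := fun a b h => (Fintype.equivFin _).injective (Fin.ext h)
  let D := ∑ l, depth (tm.m l)
  have hD : ∀ l, depth (tm.m l) ≤ D := fun l =>
    Finset.single_le_sum (f := fun l => depth (tm.m l)) (fun _ _ => Nat.zero_le _)
      (Finset.mem_univ l)
  have hfin := cfg_finite (Λ := tm.Λ) (σ := tm.σ) A hA D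
  let rows := hfin.toFinset.toList.map (rowOf tm.m D e sc cd)
  have hrows : ∀ r, r ∈ rows ↔ ∃ c : TM2.Cfg tm.Γ tm.Λ tm.σ,
      ((∀ k, ∀ a ∈ c.stk k, (⟨k, a⟩ : Σ k, tm.Γ k) ∈ A) ∧ ∀ k, (c.stk k).length ≤ D) ∧
        rowOf tm.m D e sc cd c = r := by
    intro r; simp [rows]
  refine ⟨⟨Fintype.card tm.K, D, Al.length + 2, sc (some tm.main, tm.initialState), e tm.k₀,
    e tm.k₁, cd ⟨tm.k₀, ι.symm false⟩, cd ⟨tm.k₀, ι.symm true⟩, cd ⟨tm.k₁, o.symm β⟩, rows⟩,
    time, ⟨(e tm.k₁).2, fun r hr => ?_⟩, fun a => ?_⟩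
  · obtain ⟨c, _, rfl⟩ := (hrows r).1 hr
    refine ⟨fun w hw => ?_, fun k hk => ?_⟩
    · simp only [rowOf, List.mem_flatMap, List.mem_range, List.mem_map] at hw
      obtain ⟨k, hk, i, hi, rfl⟩ := hw
      exact ⟨hk, hi⟩
    · simp only [rowOf, List.mem_map]
      exact ⟨_, ⟨⟨k, hk⟩, List.mem_finRange _, rfl⟩, rfl⟩
  · let c0 : TM2.Cfg tm.Γ tm.Λ tm.σ := initList tm ((ea a).map ι.symm)
    have hs0 : c0.stk tm.k₀ = (ea a).map ι.symm := by simp [c0, initList]
    have hs1 : ∀ k, k ≠ tm.k₀ → c0.stk k = [] := fun k hk => by simp [c0, initList, hk]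
    have hinv : ∀ t k, ∀ x ∈ ((nxt tm.m)^[t] c0).stk k, (⟨k, x⟩ : Σ k, tm.Γ k) ∈ A := by
      intro t
      induction t with
      | zero =>
        intro k x hx
        by_cases hk : k = tm.k₀
        · subst hk
          rw [iterate_zero_apply, hs0] at hx
          obtain ⟨b, _, rfl⟩ := List.mem_map.1 hx
          exact Or.inr (Or.inl ⟨b, rfl⟩)
        · rw [iterate_zero_apply, hs1 k hk] at hx; cases hx
      | succ t ih =>
        rw [iterate_succ_apply']
        exact nxt_mem _ A (fun l => (Set.subset_iUnion (fun l => pushes (tm.m l)) l).trans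
          Set.subset_union_left) _ ih
    refine ⟨fun t => conf e sc cd ((nxt tm.m)^[t] c0), ⟨rfl, ?_, ?_, ?_, ?_, ?_, ?_⟩, ?_⟩
    · intro k hk i
      by_cases h : k < Fintype.card tm.K
      · obtain ⟨j, hj⟩ := e.surjective ⟨k, h⟩
        have hk' : k = e j := by rw [hj]
        subst hk'
        rw [conf_cell, iterate_zero_apply, hs1 j (by rintro rfl; exact hk rfl)]
        rfl
      · simp [conf, h]
    · rintro ⟨b, i⟩ hx
      obtain ⟨hi, hb⟩ := List.mem_zipIdx' hx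
      simp only [conf_cell, iterate_zero_apply, hs0]
      rw [List.getD_eq_getElem _ _ (by simpa using hi)]
      simp only [List.getElem_map, ← hb]
      cases b <;> rfl
    · intro i
      simp only [conf_cell, iterate_zero_apply, hs0]
      exact List.getD_eq_default _ _ (by simp)
    · intro t
      refine ⟨_, (hrows _).2 ⟨trunc D ((nxt tm.m)^[t] c0), ⟨fun k x hx => ?_, fun k => ?_⟩, rfl⟩,
        match_rowOf _ _ _ _ _ _⟩
      · exact hinv t k x (List.mem_of_mem_take hx)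
      · simp [trunc]
    · intro t r hr hm
      obtain ⟨c, hc, rfl⟩ := (hrows r).1 hr
      rw [iterate_succ_apply']
      exact apply_rowOf _ D hD e sc hsc cd A hcd h0 _ _ (hinv t) hc.1 hc.2 hm
    · intro t k i
      simp only [conf]
      split_ifs with h
      · rw [List.getD_eq_getElem?_getD]
        cases h' : (List.map _ _)[i]? with
        | none => simp
        | some s =>
          obtain ⟨x, _, rfl⟩ := List.mem_map.1 (List.mem_of_getElem? h')
          exact hlt _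
      · omega
    · intro T hT
      obtain ⟨⟨n, hn⟩, hle⟩ := hout a
      have h1 := nxt_iter tm.m n c0 _ hn
      have h2 : (nxt tm.m)^[T] c0 = haltList tm ([R a].map o.symm) := by
        obtain ⟨d, rfl⟩ : ∃ d, T = d + n := ⟨T - n, by simp only at hle; omega⟩
        rw [iterate_add_apply, h1]
        exact iterate_fixed rfl d
      have h3 : (haltList tm ([R a].map o.symm)).stk tm.k₁ = [o.symm (R a)] := by
        simp [haltList]
      simp only [conf_cell, h2]
      rw [h3]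
      simp only [List.map_cons, List.getD_cons_zero]
      refine ⟨fun h => ?_, fun h => by rw [h]⟩
      have := hcd (Or.inr (Or.inr ⟨R a, rfl⟩)) (Or.inr (Or.inr ⟨β, rfl⟩)) h
      simpa using this

end Pool.Agent.Lib.Common.CookLevin
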